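import Pool.Agent.Work.MP_0f6836_lc.UB.Max

/-!
# The maximal order type of Kriz's quasiordering

MP_0f6836_lc, helper24.
-/

namespace Pool.Agent.Results.MP_0f6836_lc.KrizMaximalOrderType

open Kriz

/-- Kriz's quasiordering of the finite rooted trees with positive integer edge labels is a well
quasiordering, and its maximal order type is exactly `kappa`: `kappa` is the greatest order type of
a linear extension. -/
theorem result : (∀ f : ℕ → LTree, ∃ m n, m < n ∧ (f m).Le (f n)) ∧
    IsGreatest {γ : Ordinal.{0} | ∃ r, LTree.IsLin γ r} kappa := main_max

end Pool.Agent.Results.MP_0f6836_lc.KrizMaximalOrderType
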