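import Pool.Agent.Work.MP_0f6836_lc.PTO.Main

/-!
# MP_0f6836_lc: the proof-theoretic ordinal of `RCA_0` + Kriz's theorem

`IsRCA0 S` says that `(M, S)` is a model of `RCA_0`. For `Σ₁` formulas `τ`, `ε` that define in `ℕ`
the set of codes of finite rooted trees with positive edge labels and Kriz's quasiordering on
codes, `GoodIn S (τ.set M) (ε.set M)` is Kriz's theorem in `(M, S)`, and
`WOIn S (o.set M) (l.set M)` says that the ordering defined by `o`, `l` is well-founded in
`(M, S)`. By Gödel's completeness theorem `Proves τ ε o l` means that `RCA_0` + Kriz's theorem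
proves the latter.
-/

namespace Pool.Agent.Results.MP_0f6836_lc.KrizProofTheoreticOrdinal

open Kriz Kriz.PTO Ordinal

/-- Kriz's theorem can be expressed by `Σ₁` formulas, and for every such formalisation the
proof-theoretic ordinal of `RCA_0` + Kriz's theorem, i.e. the supremum of the order types of the
well-orderings given by bounded formulas (or by the formulas in any larger class `K`) that this
theory proves to be well-founded, is `κ ^ ω`. -/
theorem result :
    (∃ τ ε : Fm, τ.IsSigma ∧ ε.IsSigma ∧ τ.set ℕ = trees ∧ ε.set ℕ = krizLe) ∧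
    ∀ τ ε : Fm, τ.IsSigma → ε.IsSigma → τ.set ℕ = trees → ε.set ℕ = krizLe →
      ∀ K : Fm → Prop, (∀ φ : Fm, φ.Bdd → K φ) →
        IsLUB {α : Ordinal.{0} | ∃ o l : Fm, K o ∧ K l ∧ OrdType (o.set ℕ) (l.set ℕ) α ∧
          Proves τ ε o l} (kappa ^ (ω : Ordinal.{0})) :=
  ⟨exists_formulas, fun _ _ h1 h2 h3 h4 K hK => main_pto h1 h2 h3 h4 K hK⟩

end Pool.Agent.Results.MP_0f6836_lc.KrizProofTheoreticOrdinal
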